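import Mathlib

/-!
# Two unrelated keywords with isomorphic substitution graphs

The keywords `a = 01011000` and `b = 01010000` (`m = 7`) are not related by negation, seminegation
and reversal, but their substitution graphs are isomorphic for all `n`.

The words are replaced by their difference words (`u_i + u_{i+1}`, with `u_0 = u_{n+1} = 0`). A move
at an occurrence of `w` (the difference word of the keyword) changes the two letters which are
adjacent to the occurrence. For `a` and `b` these difference words are `1 c 0` and `1 c' 0` with
`c = 11010`, `c' = 11100`. The isomorphism `F` exchanges `c` and `c'` in all blocks `x c y`, `x c' y`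
which belong to a chain of adjacent blocks which starts (at its left end) with a `1` and ends with
a `0`, so that each of them can become an occurrence of `w` or `w'` by moves in the chain.
-/

namespace Pool.Agent.Results.MP_53071c_co.IsomorphicKeywordGraphs

/-- Negation of a binary word. -/
def neg (u : List Bool) : List Bool := u.map not

/-- Seminegation: the letters in even positions (the second, the fourth, ...) are negated. -/
def semineg : List Bool → List Bool
  | x :: y :: l => x :: (!y) :: semineg l
  | [x] => [x]
  | [] => []

/-- `v` is obtained from `u` by a finite composition of negation, seminegation and reversal. -/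
def Obtained (u v : List Bool) : Prop :=
  Relation.ReflTransGen (fun x y => y = neg x ∨ y = semineg x ∨ y = x.reverse) u v

/-- `v` arises from `u` by replacing one block `a` of consecutive letters by its negation. -/
def Step (a u v : List Bool) : Prop := ∃ s t, u = s ++ a ++ t ∧ v = s ++ neg a ++ t

/-- The graph `G_n^(a)` on the binary words of length `n`: two distinct words are adjacent iff one
arises from the other by a substitution `a ↦ ¬a` or `¬a ↦ a` of a block of consecutive letters. -/
def G (a : List Bool) (n : ℕ) : SimpleGraph {u : List Bool // u.length = n} where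
  Adj u v := u ≠ v ∧ (Step a u.1 v.1 ∨ Step a v.1 u.1)
  symm := ⟨fun _ _ h => ⟨h.1.symm, h.2.symm⟩⟩
  loopless := ⟨fun _ h => h.1 rfl⟩

/-! ### The exchange map -/

/-- `d = 11010` or `d = 11100` -/
def isD (d1 d2 d3 d4 d5 : Bool) : Bool := d1 && d2 && (d3 ^^ d4) && !d5

/-- the word starts with a chain of blocks `1 d 1, ..., 1 d 1, 1 d 0` -/
def R : List Bool → Bool
  | x :: d1 :: d2 :: d3 :: d4 :: d5 :: y :: r => x && isD d1 d2 d3 d4 d5 && (!y || R r)
  | _ => false

/-- the block at the beginning of the word is active (`s`: it is adjacent to a chain on the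
left) -/
def act (s : Bool) : List Bool → Bool
  | x :: d1 :: d2 :: d3 :: d4 :: d5 :: y :: r => (x || s) && isD d1 d2 d3 d4 d5 && (!y || R r)
  | _ => false

/-- the exchange map -/
def F (s : Bool) : List Bool → List Bool
  | x :: d1 :: d2 :: d3 :: d4 :: d5 :: y :: r =>
    if act s (x :: d1 :: d2 :: d3 :: d4 :: d5 :: y :: r) then
      x :: d1 :: d2 :: (!d3) :: (!d4) :: d5 :: y :: F (!y) r
    else x :: F false (d1 :: d2 :: d3 :: d4 :: d5 :: y :: r)
  | x :: l => x :: F false l
  | [] => []
termination_by l => l.length

lemma R_eq (l : List Bool) : R l = act false l := by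
  unfold R act
  split <;> simp

lemma F_act {s x d1 d2 d3 d4 d5 y : Bool} {r : List Bool}
    (h : act s (x :: d1 :: d2 :: d3 :: d4 :: d5 :: y :: r) = true) :
    F s (x :: d1 :: d2 :: d3 :: d4 :: d5 :: y :: r) =
      x :: d1 :: d2 :: (!d3) :: (!d4) :: d5 :: y :: F (!y) r := by
  rw [F, if_pos h]

lemma F_nil (s : Bool) : F s [] = [] := by rw [F]

lemma F_not {s x : Bool} {t : List Bool} (h : act s (x :: t) = false) :
    F s (x :: t) = x :: F false t := by
  match t, h with
  | d1 :: d2 :: d3 :: d4 :: d5 :: y :: r, h =>
    rw [F, if_neg (by rw [h]; decide)]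
  | [], _ => rw [F]; simp
  | [a], _ => rw [F]; simp
  | [a, b], _ => rw [F]; simp
  | [a, b, c], _ => rw [F]; simp
  | [a, b, c, d], _ => rw [F]; simp
  | [a, b, c, d, e], _ => rw [F]; simp

/-- the shape of words with an active block -/
lemma act_shape {s : Bool} {l : List Bool} (h : act s l = true) :
    ∃ x d1 d2 d3 d4 d5 y r, l = x :: d1 :: d2 :: d3 :: d4 :: d5 :: y :: r ∧
      ((x || s) = true ∧ isD d1 d2 d3 d4 d5 = true ∧ (!y || R r) = true) := by
  unfold act at h
  split at h
  · rename_i x d1 d2 d3 d4 d5 y r
    refine ⟨x, d1, d2, d3, d4, d5, y, r, rfl, ?_⟩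
    simpa [and_assoc] using h
  · simp at h

lemma F_length (s : Bool) (l : List Bool) : (F s l).length = l.length := by
  induction hn : l.length using Nat.strong_induction_on generalizing s l with
  | _ n ih =>
    rcases l with _ | ⟨x, t⟩
    · rw [F_nil]; exact hn
    by_cases h : act s (x :: t) = true
    · obtain ⟨x', d1, d2, d3, d4, d5, y, r, hl, -⟩ := act_shape h
      rw [hl] at h hn ⊢
      rw [F_act h]
      simp only [List.length_cons] at hn ⊢
      rw [ih r.length (by omega) (!y) r rfl]
      omega
    · rw [F_not (by simpa using h)]
      simp only [List.length_cons] at hn ⊢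
      rw [ih t.length (by omega) false t rfl]
      omega

/-- the sum of the letters modulo two -/
def par (l : List Bool) : Bool := l.foldr xor false

lemma par_cons (x : Bool) (l : List Bool) : par (x :: l) = (x ^^ par l) := rfl

lemma F_par (s : Bool) (l : List Bool) : par (F s l) = par l := by
  induction hn : l.length using Nat.strong_induction_on generalizing s l with
  | _ n ih =>
    rcases l with _ | ⟨x, t⟩
    · rw [F_nil]
    by_cases h : act s (x :: t) = true
    · obtain ⟨x', d1, d2, d3, d4, d5, y, r, hl, -⟩ := act_shape h
      rw [hl] at h hn ⊢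
      rw [F_act h]
      simp only [List.length_cons] at hn
      simp only [par_cons]
      rw [ih r.length (by omega) (!y) r rfl]
      cases d3 <;> cases d4 <;> simp
    · rw [F_not (by simpa using h)]
      simp only [List.length_cons] at hn
      rw [par_cons, par_cons, ih t.length (by omega) false t rfl]

/-! ### Letters before an occurrence -/

section Context

variable {d1 d2 d3 d4 d5 : Bool} (hd : isD d1 d2 d3 d4 d5 = true)

include hd

lemma R_anchor (r : List Bool) : R (true :: d1 :: d2 :: d3 :: d4 :: d5 :: false :: r) = true := by
  simp [R, hd]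

lemma mis0 (s p : Bool) (r : List Bool) :
    act s (p :: true :: d1 :: d2 :: d3 :: d4 :: d5 :: false :: r) = false := by
  revert hd
  cases d1 <;> cases d2 <;> cases d3 <;> cases d4 <;> cases d5 <;> simp [act, isD]

lemma mis1 (s u0 p : Bool) (r : List Bool) :
    act s (u0 :: p :: true :: d1 :: d2 :: d3 :: d4 :: d5 :: false :: r) = false := by
  revert hd
  cases d1 <;> cases d2 <;> cases d3 <;> cases d4 <;> cases d5 <;> simp [act, isD]

lemma mis2 (s u0 u1 p : Bool) (r : List Bool) :
    act s (u0 :: u1 :: p :: true :: d1 :: d2 :: d3 :: d4 :: d5 :: false :: r) = false := by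
  revert hd
  cases d1 <;> cases d2 <;> cases d3 <;> cases d4 <;> cases d5 <;> simp [act, isD]

lemma mis3 (s u0 u1 u2 p : Bool) (r : List Bool) :
    act s (u0 :: u1 :: u2 :: p :: true :: d1 :: d2 :: d3 :: d4 :: d5 :: false :: r) = false := by
  revert hd
  cases d1 <;> cases d2 <;> cases d3 <;> cases d4 <;> cases d5 <;> simp [act, isD]

omit hd in
lemma mis4 (s u0 u1 u2 u3 p : Bool) (r : List Bool) :
    act s (u0 :: u1 :: u2 :: u3 :: p :: true :: d1 :: r) = false := by
  simp [act, isD]

lemma mis5 (s u0 u1 u2 u3 u4 p : Bool) (r : List Bool) :
    act s (u0 :: u1 :: u2 :: u3 :: u4 :: p :: true :: d1 :: d2 :: d3 :: d4 :: d5 :: false :: r) =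
      false := by
  have h : d1 = true ∧ d2 = true ∧ d3 = (!d4) ∧ d5 = false := by
    revert hd
    cases d1 <;> cases d2 <;> cases d3 <;> cases d4 <;> cases d5 <;> simp [isD]
  obtain ⟨rfl, rfl, rfl, rfl⟩ := h
  have h2 : R (true :: true :: (!d4) :: d4 :: false :: false :: r) = false := by
    rcases r with _ | ⟨r0, r⟩
    · rfl
    · rw [R]
      cases d4 <;> simp [isD]
  rw [act, h2]
  simp

/-- `R` does not depend on the letter before an occurrence of `w` or `w'`. -/
lemma R_context (u : List Bool) (p p' : Bool) (r r' : List Bool) :
    R (u ++ p :: true :: d1 :: d2 :: d3 :: d4 :: d5 :: false :: r) =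
      R (u ++ p' :: true :: d1 :: d2 :: d3 :: d4 :: d5 :: false :: r') := by
  induction hn : u.length using Nat.strong_induction_on generalizing u with
  | _ n ih =>
    match u, hn with
    | [], _ => simp only [R_eq, List.nil_append, mis0 hd]
    | [u0], _ => simp only [R_eq, List.cons_append, List.nil_append, mis1 hd]
    | [u0, u1], _ => simp only [R_eq, List.cons_append, List.nil_append, mis2 hd]
    | [u0, u1, u2], _ => simp only [R_eq, List.cons_append, List.nil_append, mis3 hd]
    | [u0, u1, u2, u3], _ => simp only [R_eq, List.cons_append, List.nil_append, mis4]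
    | [u0, u1, u2, u3, u4], _ => simp only [R_eq, List.cons_append, List.nil_append, mis5 hd]
    | [u0, u1, u2, u3, u4, u5], _ =>
      have e : ∀ (p : Bool) (r : List Bool), R (u0 :: u1 :: u2 :: u3 :: u4 :: u5 :: p :: true ::
          d1 :: d2 :: d3 :: d4 :: d5 :: false :: r) = (u0 && isD u1 u2 u3 u4 u5) := by
        intro p r
        rw [R, R_anchor hd]
        simp
      simp only [List.cons_append, List.nil_append]
      rw [e, e]
    | u0 :: u1 :: u2 :: u3 :: u4 :: u5 :: u6 :: u, hn =>
      simp only [List.cons_append]
      rw [R, R, ih u.length (by simp only [List.length_cons] at hn; omega) u rfl]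

lemma F_anchor (s : Bool) (r : List Bool) :
    F s (true :: d1 :: d2 :: d3 :: d4 :: d5 :: false :: r) =
      true :: d1 :: d2 :: (!d3) :: (!d4) :: d5 :: false :: F true r := by
  rw [F_act (by simp [act, hd])]
  rfl

/-- The map `F` before an occurrence of `w` or `w'`. -/
lemma F_context (s : Bool) (u : List Bool) : ∃ U : List Bool, U.length = u.length ∧
    ∀ (p : Bool) (r : List Bool),
      F s (u ++ p :: true :: d1 :: d2 :: d3 :: d4 :: d5 :: false :: r) =
        U ++ p :: true :: d1 :: d2 :: (!d3) :: (!d4) :: d5 :: false :: F true r := by
  induction hn : u.length using Nat.strong_induction_on generalizing s u with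
  | _ n ih =>
    have step : ∀ (s u0 : Bool) (u' : List Bool), u = u0 :: u' →
        (∀ (p : Bool) (r : List Bool),
          act s ((u0 :: u') ++ p :: true :: d1 :: d2 :: d3 :: d4 :: d5 :: false :: r) = false) →
        ∃ U : List Bool, U.length = n ∧ ∀ (p : Bool) (r : List Bool),
          F s ((u0 :: u') ++ p :: true :: d1 :: d2 :: d3 :: d4 :: d5 :: false :: r) =
            U ++ p :: true :: d1 :: d2 :: (!d3) :: (!d4) :: d5 :: false :: F true r := by
      intro s u0 u' hu hact
      rw [hu] at hn
      simp only [List.length_cons] at hn
      obtain ⟨U, hU, h⟩ := ih u'.length (by omega) false u' rfl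
      refine ⟨u0 :: U, by simp [hU, hn], ?_⟩
      intro p r
      have h1 := hact p r
      rw [List.cons_append] at h1 ⊢
      rw [F_not h1, h p r, List.cons_append]
    match u, hn with
    | [], hn =>
      refine ⟨[], by simpa using hn, ?_⟩
      intro p r
      rw [List.nil_append, List.nil_append, F_not (mis0 hd s p r), F_anchor hd]
    | [u0], _ =>
      exact step s u0 [] rfl (fun p r => mis1 hd s u0 p r)
    | [u0, u1], _ =>
      exact step s u0 [u1] rfl (fun p r => mis2 hd s u0 u1 p r)
    | [u0, u1, u2], _ =>
      exact step s u0 [u1, u2] rfl (fun p r => mis3 hd s u0 u1 u2 p r)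
    | [u0, u1, u2, u3], _ =>
      exact step s u0 [u1, u2, u3] rfl (fun p r => mis4 s u0 u1 u2 u3 p _)
    | [u0, u1, u2, u3, u4], _ =>
      exact step s u0 [u1, u2, u3, u4] rfl (fun p r => mis5 hd s u0 u1 u2 u3 u4 p r)
    | [u0, u1, u2, u3, u4, u5], hn =>
      have hact : ∀ (p : Bool) (r : List Bool),
          act s (u0 :: u1 :: u2 :: u3 :: u4 :: u5 :: p :: true :: d1 :: d2 :: d3 :: d4 :: d5 ::
            false :: r) = ((u0 || s) && isD u1 u2 u3 u4 u5) := by
        intro p r
        rw [act, R_anchor hd]
        simp
      by_cases hc : ((u0 || s) && isD u1 u2 u3 u4 u5) = true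
      · refine ⟨[u0, u1, u2, !u3, !u4, u5], by simpa using hn, ?_⟩
        intro p r
        have h1 := hact p r
        rw [hc] at h1
        simp only [List.cons_append, List.nil_append]
        rw [F_act h1, F_anchor hd]
      · refine step s u0 [u1, u2, u3, u4, u5] rfl (fun p r => ?_)
        have h1 := hact p r
        simp only [List.cons_append, List.nil_append]
        rw [h1]
        simpa using hc
    | u0 :: u1 :: u2 :: u3 :: u4 :: u5 :: u6 :: u', hn =>
      have hact : ∀ (p : Bool) (r : List Bool),
          act s (u0 :: u1 :: u2 :: u3 :: u4 :: u5 :: u6 :: (u' ++ p :: true :: d1 :: d2 :: d3 ::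
            d4 :: d5 :: false :: r)) = ((u0 || s) && isD u1 u2 u3 u4 u5 &&
            (!u6 || R (u' ++ true :: true :: d1 :: d2 :: d3 :: d4 :: d5 :: false :: []))) := by
        intro p r
        rw [act, R_context hd u' p true r []]
      by_cases hc : ((u0 || s) && isD u1 u2 u3 u4 u5 &&
            (!u6 || R (u' ++ true :: true :: d1 :: d2 :: d3 :: d4 :: d5 :: false :: []))) = true
      · simp only [List.length_cons] at hn
        obtain ⟨U, hU, h⟩ := ih u'.length (by omega) (!u6) u' rfl
        refine ⟨u0 :: u1 :: u2 :: (!u3) :: (!u4) :: u5 :: u6 :: U, ?_, ?_⟩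
        · simp only [List.length_cons, hU]
          omega
        · intro p r
          have h1 := hact p r
          rw [hc] at h1
          simp only [List.cons_append]
          rw [F_act h1, h p r]
      · refine step s u0 (u1 :: u2 :: u3 :: u4 :: u5 :: u6 :: u') rfl (fun p r => ?_)
        have h1 := hact p r
        simp only [List.cons_append]
        rw [h1]
        simpa using hc

end Context

/-- The letter after an occurrence of `w` or `w'`. -/
lemma F_after (v : List Bool) : ∃ V : List Bool, ∀ q : Bool, F true (q :: v) = q :: V := by
  by_cases h : act true (true :: v) = true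
  · obtain ⟨x, d1, d2, d3, d4, d5, y, r, hl, h1, h2, h3⟩ := act_shape h
    simp only [List.cons.injEq] at hl
    obtain ⟨-, rfl⟩ := hl
    refine ⟨d1 :: d2 :: (!d3) :: (!d4) :: d5 :: y :: F (!y) r, ?_⟩
    intro q
    exact F_act (by simp [act, h2, h3])
  · have h' : ∀ q, act true (q :: v) = false := by
      intro q
      rw [← Bool.not_eq_true]
      intro hq
      apply h
      obtain ⟨x, d1, d2, d3, d4, d5, y, r, hl, h1, h2, h3⟩ := act_shape hq
      simp only [List.cons.injEq] at hl
      obtain ⟨-, rfl⟩ := hl
      simp [act, h2, h3]
    exact ⟨F false v, fun q => F_not (h' q)⟩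

/-! ### The map is an involution -/

lemma R_F_of (s : Bool) (l : List Bool) (h : R l = true) : R (F s l) = true := by
  induction hn : l.length using Nat.strong_induction_on generalizing s l with
  | _ n ih =>
    have h0 := h
    rw [R_eq] at h0
    obtain ⟨x, d1, d2, d3, d4, d5, y, r, hl, h1, h2, h3⟩ := act_shape h0
    subst hl
    simp only [Bool.or_false] at h1
    subst h1
    rw [F_act (by simp [act, h2, h3]), R]
    simp only [List.length_cons] at hn
    have h4 : isD d1 d2 (!d3) (!d4) d5 = true := by
      revert h2
      cases d1 <;> cases d2 <;> cases d3 <;> cases d4 <;> cases d5 <;> simp [isD]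
    cases y
    · simp [h4]
    · have h5 : R r = true := by simpa using h3
      simp [h4, ih r.length (by omega) false r h5 rfl]

lemma F_of_R {t : List Bool} (h : act false t = true) : ∃ g3 g4 y r', (g3 ^^ g4) = true ∧
    F false t = true :: true :: true :: g3 :: g4 :: false :: y :: r' := by
  obtain ⟨x, d1, d2, d3, d4, d5, y, r, hl, h1, h2, h3⟩ := act_shape h
  subst hl
  simp only [Bool.or_false] at h1
  subst h1
  rw [F_act h]
  refine ⟨!d3, !d4, y, F (!y) r, ?_, ?_⟩
  · revert h2
    cases d1 <;> cases d2 <;> cases d3 <;> cases d4 <;> cases d5 <;> simp [isD]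
  · revert h2
    cases d1 <;> cases d2 <;> cases d3 <;> cases d4 <;> cases d5 <;> simp [isD]

lemma peel {t : List Bool} {e : Bool} {z : List Bool} (h : F false t = e :: z)
    (ha : act false t = false) : ∃ t', t = e :: t' ∧ F false t' = z := by
  rcases t with _ | ⟨x, t⟩
  · rw [F_nil] at h; simp at h
  · rw [F_not ha] at h
    simp only [List.cons.injEq] at h
    exact ⟨t, by rw [h.1], h.2⟩

/-- No misaligned active block arises. -/
lemma act_back (s x : Bool) (t : List Bool)
    (ih : ∀ l : List Bool, l.length < t.length → R (F false l) = R l)
    (h : act s (x :: F false t) = true) : act s (x :: t) = true := by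
  obtain ⟨x', e1, e2, e3, e4, e5, y, r', hl, h1, h2, h3⟩ := act_shape h
  simp only [List.cons.injEq] at hl
  obtain ⟨rfl, hF⟩ := hl
  have he : e1 = true ∧ e2 = true ∧ (e3 ^^ e4) = true ∧ e5 = false := by
    revert h2
    cases e1 <;> cases e2 <;> cases e3 <;> cases e4 <;> cases e5 <;> simp [isD]
  obtain ⟨rfl, rfl, h34, rfl⟩ := he
  -- first letter
  have a0 : act false t = false := by
    rw [← Bool.not_eq_true]
    intro ha
    obtain ⟨g3, g4, y', r'', hg, hz⟩ := F_of_R ha
    rw [hF] at hz
    simp only [List.cons.injEq] at hz
    obtain ⟨-, -, rfl, rfl, rfl, -⟩ := hz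
    simp at h34 hg
    simp [h34] at hg
  obtain ⟨t1, ht1, hF1⟩ := peel hF a0
  have a1 : act false t1 = false := by
    rw [← Bool.not_eq_true]
    intro ha
    obtain ⟨g3, g4, y', r'', hg, hz⟩ := F_of_R ha
    rw [hF1] at hz
    simp only [List.cons.injEq] at hz
    obtain ⟨-, rfl, rfl, -⟩ := hz
    simp at h34
  obtain ⟨t2, ht2, hF2⟩ := peel hF1 a1
  have a2 : act false t2 = false := by
    rw [← Bool.not_eq_true]
    intro ha
    obtain ⟨g3, g4, y', r'', hg, hz⟩ := F_of_R ha
    rw [hF2] at hz
    simp only [List.cons.injEq] at hz
    obtain ⟨rfl, rfl, -⟩ := hz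
    simp at h34
  obtain ⟨t3, ht3, hF3⟩ := peel hF2 a2
  have a3 : act false t3 = false := by
    rw [← Bool.not_eq_true]
    intro ha
    obtain ⟨g3, g4, y', r'', hg, hz⟩ := F_of_R ha
    rw [hF3] at hz
    simp at hz
  obtain ⟨t4, ht4, hF4⟩ := peel hF3 a3
  have a4 : act false t4 = false := by
    rw [← Bool.not_eq_true]
    intro ha
    obtain ⟨g3, g4, y', r'', hg, hz⟩ := F_of_R ha
    rw [hF4] at hz
    simp at hz
  obtain ⟨t5, ht5, hF5⟩ := peel hF4 a4
  have a5 : act false t5 = false := by
    rw [← Bool.not_eq_true]
    intro ha
    obtain ⟨g3, g4, y', r'', hg, hz⟩ := F_of_R ha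
    rw [hF5] at hz
    simp only [List.cons.injEq] at hz
    obtain ⟨rfl, rfl⟩ := hz
    simp only [Bool.not_true, Bool.false_or] at h3
    rw [R_eq] at h3
    obtain ⟨x3, f1, f2, f3, f4, f5, y3, r3, hl3, -, hf, -⟩ := act_shape h3
    simp only [List.cons.injEq] at hl3
    obtain ⟨-, rfl, rfl, rfl, rfl, -⟩ := hl3
    revert hg hf
    cases g3 <;> cases g4 <;> simp [isD]
  obtain ⟨t6, ht6, hF6⟩ := peel hF5 a5
  subst ht6 ht5 ht4 ht3 ht2 ht1
  have h6 := ih t6 (by simp only [List.length_cons]; omega)
  rw [hF6] at h6
  rw [act, h1, h2, ← h6, h3]
  rfl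

lemma R_F (s : Bool) (l : List Bool) : R (F s l) = R l := by
  induction hn : l.length using Nat.strong_induction_on generalizing s l with
  | _ n ih =>
    by_cases h : R l = true
    · rw [h, R_F_of s l h]
    · rw [Bool.not_eq_true] at h
      rw [h]
      rcases l with _ | ⟨x, t⟩
      · rw [F_nil]; rfl
      by_cases ha : act s (x :: t) = true
      · obtain ⟨x', d1, d2, d3, d4, d5, y, r, hl, h1, h2, h3⟩ := act_shape ha
        rw [hl] at ha h ⊢
        rw [F_act ha]
        rw [R, h2, h3] at h
        simp only [Bool.and_true] at h
        rw [h, R]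
        simp
      · rw [Bool.not_eq_true] at ha
        rw [F_not ha, R_eq, ← Bool.not_eq_true]
        intro hb
        have := act_back false x t (fun l hl => by
          simp only [List.length_cons] at hn
          exact ih l.length (by omega) false l rfl) hb
        rw [← R_eq, h] at this
        simp at this

lemma F_F (s : Bool) (l : List Bool) : F s (F s l) = l := by
  induction hn : l.length using Nat.strong_induction_on generalizing s l with
  | _ n ih =>
    rcases l with _ | ⟨x, t⟩
    · rw [F_nil, F_nil]
    by_cases ha : act s (x :: t) = true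
    · obtain ⟨x', d1, d2, d3, d4, d5, y, r, hl, h1, h2, h3⟩ := act_shape ha
      rw [hl] at ha hn ⊢
      simp only [List.length_cons] at hn
      have h4 : isD d1 d2 (!d3) (!d4) d5 = true := by
        revert h2
        cases d1 <;> cases d2 <;> cases d3 <;> cases d4 <;> cases d5 <;> simp [isD]
      rw [F_act ha, F_act (by rw [act, h1, h4, R_F, h3]; rfl), Bool.not_not, Bool.not_not,
        ih r.length (by omega) (!y) r rfl]
    · have hb : act s (x :: F false t) = false := by
        rw [← Bool.not_eq_true]
        intro hb
        exact ha (act_back s x t (fun l _ => R_F false l) hb)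
      rw [F_not (by simpa using ha), F_not hb,
        ih t.length (by simp only [List.length_cons] at hn; omega) false t rfl]

/-! ### Moves of difference words -/

/-- a move of the difference words at an occurrence of `w` -/
def Move (w l l' : List Bool) : Prop :=
  ∃ U p q V, l = U ++ p :: (w ++ q :: V) ∧ l' = U ++ (!p) :: (w ++ (!q) :: V)

lemma move_F {d1 d2 d3 d4 d5 : Bool} (hd : isD d1 d2 d3 d4 d5 = true) {l l' : List Bool}
    (h : Move [true, d1, d2, d3, d4, d5, false] l l') :
    Move [true, d1, d2, !d3, !d4, d5, false] (F false l) (F false l') := by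
  obtain ⟨u, p, q, v, rfl, rfl⟩ := h
  obtain ⟨U, -, hU⟩ := F_context hd false u
  obtain ⟨V, hV⟩ := F_after v
  refine ⟨U, p, q, V, ?_, ?_⟩
  · have h1 := hU p (q :: v)
    rw [hV q] at h1
    simpa using h1
  · have h1 := hU (!p) ((!q) :: v)
    rw [hV (!q)] at h1
    simpa using h1

/-- the difference word of the first keyword -/
def w1 : List Bool := [true, true, true, false, true, false, false]

/-- the difference word of the second keyword -/
def w2 : List Bool := [true, true, true, true, false, false, false]

lemma move_iff (l l' : List Bool) : Move w1 l l' ↔ Move w2 (F false l) (F false l') := by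
  constructor
  · intro h
    exact move_F (d1 := true) (d2 := true) (d3 := false) (d4 := true) (d5 := false) rfl h
  · intro h
    have := move_F (d1 := true) (d2 := true) (d3 := true) (d4 := false) (d5 := false) rfl h
    rw [F_F, F_F] at this
    exact this

/-! ### Difference words -/

/-- the differences of consecutive letters, with a letter `b` in front -/
def dif : Bool → List Bool → List Bool
  | _, [] => []
  | b, x :: l => (b ^^ x) :: dif x l

/-- the inverse of `dif` -/
def und : Bool → List Bool → List Bool
  | _, [] => []
  | b, x :: l => (b ^^ x) :: und (b ^^ x) l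

/-- the last letter of `b l` -/
def lst : Bool → List Bool → Bool
  | b, [] => b
  | _, x :: l => lst x l

lemma dif_und (b : Bool) (l : List Bool) : dif b (und b l) = l := by
  induction l generalizing b with
  | nil => rfl
  | cons x l ih =>
    rw [und, dif, ih]
    cases b <;> cases x <;> rfl

lemma und_dif (b : Bool) (l : List Bool) : und b (dif b l) = l := by
  induction l generalizing b with
  | nil => rfl
  | cons x l ih =>
    rw [dif, und]
    have : (b ^^ (b ^^ x)) = x := by cases b <;> cases x <;> rfl
    rw [this, ih]

lemma dif_length (b : Bool) (l : List Bool) : (dif b l).length = l.length := by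
  induction l generalizing b with
  | nil => rfl
  | cons x l ih => rw [dif, List.length_cons, List.length_cons, ih]

lemma und_length (b : Bool) (l : List Bool) : (und b l).length = l.length := by
  induction l generalizing b with
  | nil => rfl
  | cons x l ih => rw [und, List.length_cons, List.length_cons, ih]

lemma dif_append (b : Bool) (l l' : List Bool) : dif b (l ++ l') = dif b l ++ dif (lst b l) l' := by
  induction l generalizing b with
  | nil => rfl
  | cons x l ih => rw [List.cons_append, dif, ih, dif, lst, List.cons_append]

lemma und_append (b : Bool) (l l' : List Bool) :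
    und b (l ++ l') = und b l ++ und (lst b (und b l)) l' := by
  induction l generalizing b with
  | nil => rfl
  | cons x l ih => rw [List.cons_append, und, ih, und, lst, List.cons_append]

lemma par_dif (b : Bool) (l : List Bool) : par (dif b l) = (b ^^ lst b l) := by
  induction l generalizing b with
  | nil => simp [dif, par, lst]
  | cons x l ih =>
    rw [dif, par_cons, ih, lst]
    cases b <;> cases x <;> simp

lemma dif_inj {b : Bool} {l l' : List Bool} (h : dif b l = dif b l') : l = l' := by
  rw [← und_dif b l, h, und_dif]

lemma und_neg (b : Bool) (l : List Bool) : und (!b) l = neg (und b l) := by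
  induction l generalizing b with
  | nil => rfl
  | cons x l ih =>
    have h : ((!b) ^^ x) = !(b ^^ x) := by cases b <;> cases x <;> rfl
    rw [und, h, ih, und]
    rfl

lemma lst_neg (b : Bool) (l : List Bool) : lst (!b) (neg l) = !(lst b l) := by
  induction l generalizing b with
  | nil => rfl
  | cons x l ih =>
    change lst (!x) (neg l) = _
    rw [ih, lst]

lemma neg_neg (l : List Bool) : neg (neg l) = l := by
  have h : (not ∘ not) = id := by
    funext x
    cases x <;> rfl
  rw [neg, neg, List.map_map, h, List.map_id]

lemma lst_append_singleton (b : Bool) (l : List Bool) (e : Bool) : lst b (l ++ [e]) = e := by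
  induction l generalizing b with
  | nil => rfl
  | cons x l ih => rw [List.cons_append, lst, ih]

/-- the difference word of `0 u 0` -/
def dw (u : List Bool) : List Bool := dif false (u ++ [false])

lemma dw_inj {u v : List Bool} (h : dw u = dw v) : u = v :=
  List.append_cancel_right (dif_inj h)

/-- The substitutions of the keyword are the moves of the difference words. -/
lemma step_move (w : List Bool) {u v : List Bool} (h : Step (false :: und false w) u v) :
    Move w (dw u) (dw v) := by
  obtain ⟨s, t, rfl, rfl⟩ := h
  obtain ⟨t0, t', ht⟩ : ∃ t0 t', t ++ [false] = t0 :: t' := by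
    rcases t with _ | ⟨t0, t'⟩
    · exact ⟨false, [], rfl⟩
    · exact ⟨t0, t' ++ [false], rfl⟩
  refine ⟨dif false s, lst false s, (lst false (und false w) ^^ t0), dif t0 t', ?_, ?_⟩
  · rw [dw, List.append_assoc, List.append_assoc, ht, List.cons_append, dif_append, dif,
      dif_append, dif_und, dif]
    simp
  · have h1 : neg (false :: und false w) = true :: und true w := by
      rw [show (true : Bool) = !false from rfl, und_neg]
      rfl
    have h2 : lst true (und true w) = !(lst false (und false w)) := by
      rw [show (true : Bool) = !false from rfl, und_neg, lst_neg]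
    rw [dw, h1, List.append_assoc, List.append_assoc, ht, List.cons_append, dif_append, dif,
      dif_append, dif_und, dif, h2]
    have h3 : (!(lst false (und false w)) ^^ t0) = !(lst false (und false w) ^^ t0) := by
      cases lst false (und false w) <;> cases t0 <;> rfl
    rw [h3]
    simp

lemma move_step (w : List Bool) {u v : List Bool} (h : Move w (dw u) (dw v)) :
    Step (false :: und false w) u v ∨ Step (false :: und false w) v u := by
  obtain ⟨U, p, q, V, hu, hv⟩ := h
  set c := lst false (und false U) with hc
  have eu : u ++ [false] = und false U ++ ((c ^^ p) :: (und (c ^^ p) w ++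
      und (lst (c ^^ p) (und (c ^^ p) w)) (q :: V))) := by
    rw [← und_dif false (u ++ [false]), ← dw, hu, und_append, und, und_append]
  have ev : v ++ [false] = und false U ++ ((c ^^ (!p)) :: (und (c ^^ (!p)) w ++
      und (lst (c ^^ (!p)) (und (c ^^ (!p)) w)) ((!q) :: V))) := by
    rw [← und_dif false (v ++ [false]), ← dw, hv, und_append, und, und_append]
  have h1 : (c ^^ (!p)) = !(c ^^ p) := by cases c <;> cases p <;> rfl
  rw [h1, und_neg, lst_neg] at ev
  set e := lst (c ^^ p) (und (c ^^ p) w) with he
  have h2 : und (!e) ((!q) :: V) = und e (q :: V) := by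
    rw [und, und]
    have : ((!e) ^^ (!q)) = (e ^^ q) := by cases e <;> cases q <;> rfl
    rw [this]
  rw [h2] at ev
  obtain ⟨T, hT⟩ : ∃ T : List Bool, und e (q :: V) = T ++ [false] := by
    obtain ⟨T, f, hT⟩ : ∃ T f, und e (q :: V) = T ++ [f] := by
      rcases List.eq_nil_or_concat (und e (q :: V)) with h | ⟨T, f, h⟩
      · rw [und] at h; simp at h
      · exact ⟨T, f, by simpa using h⟩
    refine ⟨T, ?_⟩
    rw [hT] at eu
    have h3 : u ++ [false] = (und false U ++ ((c ^^ p) :: (und (c ^^ p) w ++ T))) ++ [f] := by
      rw [eu]; simp
    have h4 := List.append_inj_right' h3 rfl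
    simp only [List.cons.injEq, and_true] at h4
    rw [hT, ← h4]
  rw [hT] at eu ev
  have hu' : u = und false U ++ ((c ^^ p) :: und (c ^^ p) w) ++ T := by
    apply List.append_cancel_right (bs := [false])
    rw [eu]; simp
  have hv' : v = und false U ++ ((!(c ^^ p)) :: neg (und (c ^^ p) w)) ++ T := by
    apply List.append_cancel_right (bs := [false])
    rw [ev]; simp
  rcases hcp : (c ^^ p) with _ | _
  · left
    rw [hcp] at hu' hv'
    exact ⟨und false U, T, hu', hv'⟩
  · right
    rw [hcp] at hu' hv'
    refine ⟨und false U, T, ?_, ?_⟩
    · rw [hv']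
      rw [show (true : Bool) = !false from rfl, und_neg, neg_neg]
      rfl
    · rw [hu']
      rw [show (true : Bool) = !false from rfl, und_neg]
      rfl

lemma move_symm {w l l' : List Bool} (h : Move w l l') : Move w l' l := by
  obtain ⟨U, p, q, V, rfl, rfl⟩ := h
  exact ⟨U, !p, !q, V, rfl, by simp⟩

lemma adj_iff (w : List Bool) (u v : List Bool) :
    (Step (false :: und false w) u v ∨ Step (false :: und false w) v u) ↔ Move w (dw u) (dw v) := by
  constructor
  · rintro (h | h)
    · exact step_move w h
    · exact move_symm (step_move w h)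
  · exact move_step w

/-! ### The isomorphism -/

/-- the isomorphism -/
def Phi (u : List Bool) : List Bool := (und false (F false (dw u))).dropLast

lemma dw_Phi (u : List Bool) : dw (Phi u) = F false (dw u) := by
  have hne : und false (F false (dw u)) ≠ [] := by
    intro h
    have := congrArg List.length h
    rw [und_length, F_length, dw, dif_length] at this
    simp at this
  obtain ⟨T, f, hT⟩ : ∃ T f, und false (F false (dw u)) = T ++ [f] := by
    rcases List.eq_nil_or_concat (und false (F false (dw u))) with h | ⟨T, f, h⟩
    · exact absurd h hne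
    · exact ⟨T, f, by simpa using h⟩
  have h1 : par (F false (dw u)) = false := by
    rw [F_par, dw, par_dif, lst_append_singleton]
    rfl
  have h2 : f = false := by
    have h3 := par_dif false (und false (F false (dw u)))
    rw [dif_und, h1, hT, lst_append_singleton] at h3
    simpa using h3.symm
  subst h2
  rw [Phi, hT, List.dropLast_concat, dw, ← hT, dif_und]

lemma Phi_length (u : List Bool) : (Phi u).length = u.length := by
  have h := congrArg List.length (dw_Phi u)
  rw [F_length, dw, dw, dif_length, dif_length] at h
  simpa using h

lemma Phi_Phi (u : List Bool) : Phi (Phi u) = u := by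
  apply dw_inj
  rw [dw_Phi, dw_Phi, F_F]

/-- the first keyword `01011000` -/
def a : List Bool := [false, true, false, true, true, false, false, false]

/-- the second keyword `01010000` -/
def b : List Bool := [false, true, false, true, false, false, false, false]

lemma a_eq : a = false :: und false w1 := by decide

lemma b_eq : b = false :: und false w2 := by decide

/-- the isomorphism of the graphs -/
def iso (n : ℕ) : G a n ≃g G b n where
  toFun u := ⟨Phi u.1, by rw [Phi_length]; exact u.2⟩
  invFun u := ⟨Phi u.1, by rw [Phi_length]; exact u.2⟩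
  left_inv u := Subtype.ext (Phi_Phi u.1)
  right_inv u := Subtype.ext (Phi_Phi u.1)
  map_rel_iff' := by
    intro u v
    simp only [Equiv.coe_fn_mk, G]
    rw [a_eq, b_eq, adj_iff, adj_iff, dw_Phi, dw_Phi, ← move_iff]
    apply and_congr_left
    intro _
    rw [ne_eq, ne_eq, not_iff_not]
    constructor
    · intro h
      have := congrArg Subtype.val h
      simp only at this
      apply Subtype.ext
      rw [← Phi_Phi u.1, this, Phi_Phi]
    · intro h
      rw [h]

/-- the orbit of the first keyword -/
def orb : List (List Bool) :=
  [[false, false, false, false, true, true, false, true],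
   [false, false, false, true, true, false, true, false],
   [false, true, false, false, true, true, true, true],
   [false, true, false, true, true, false, false, false],
   [true, false, true, false, false, true, true, true],
   [true, false, true, true, false, false, false, false],
   [true, true, true, false, false, true, false, true],
   [true, true, true, true, false, false, true, false]]

lemma orb_closed : ∀ x ∈ orb, neg x ∈ orb ∧ semineg x ∈ orb ∧ x.reverse ∈ orb := by decide

lemma mem_orb {c : List Bool} (h : Obtained a c) : c ∈ orb := by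
  unfold Obtained at h
  induction h with
  | refl => decide
  | tail _ h ih =>
    obtain ⟨h1, h2, h3⟩ := orb_closed _ ih
    rcases h with rfl | rfl | rfl
    · exact h1
    · exact h2
    · exact h3

lemma not_obtained : ¬ Obtained a b := by
  intro h
  have h1 := mem_orb h
  revert h1
  decide

/-- **Main result.** The keywords `a = 01011000` and `b = 01010000` have isomorphic substitution
graphs `G_n` for all `n`, but `b` is not obtained from `a` by negations, seminegations and
reversals. -/
theorem result :
    (∀ n : ℕ, Nonempty (G [false, true, false, true, true, false, false, false] n ≃g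
      G [false, true, false, true, false, false, false, false] n)) ∧
    ¬ Obtained [false, true, false, true, true, false, false, false]
      [false, true, false, true, false, false, false, false] :=
  ⟨fun n => ⟨iso n⟩, not_obtained⟩

end Pool.Agent.Results.MP_53071c_co.IsomorphicKeywordGraphs
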